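import Pool.Agent.V11230.PoolOut

/-!
# Pooling problem with one quality and out-degrees at most two: strong NP-hardness

Reduction from vertex cover. Every vertex `u` gives a pool with a good input (quality value zero,
capacity one), a strict output (bound zero, reward one per unit, capacity one) and a lenient output
(bound one). Every edge gives a bad input (quality value one, supply one) with arcs of reward two to
the pools of its two ends. A pool with inflow of bad quality sends nothing to its strict output. So
the reward is at most `n - |D| + 2 |{edges with an end in D}|`, where `D` is the set of pools with
inflow of bad quality, and the reward `2 |E| + n - k` can be obtained if and only if there is a vertex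
cover with at most `k` vertices.
-/

namespace Pool.Agent.Results.MP_743dc4_lc.OutDegTwoNPHard

open Pool.Agent.NPC Pool.Agent.NPC.V11230.Pooling

/-- The pooling problem with one quality in which all inputs and pools have out-degree at most two is
strongly NP-hard. -/
theorem result : NPHardP PoolingOutTwo := OutTwo.hardPr.toHardI.toNPHardP

end Pool.Agent.Results.MP_743dc4_lc.OutDegTwoNPHard
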